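import Pool.Agent.Helper24.NR.Defs
import Pool.Agent.Helper24.UG.Ker

/-!
# NR: blocks S1, S2, G1, G2
-/

set_option autoImplicit false
open MeasureTheory Set Filter Topology
open Pool.Agent.Helper57.Zeta Pool.Agent.Helper57.LH Pool.Agent.Helper57.ED
open Pool.Agent.Helper54.LG (za zb qk SS MM)
open Pool.Agent.Helper93.UG (zc sp)
open Pool.Agent.Helper69.UG (XX NX near far)
open Pool.Agent.Helper57.TX (QX DP rs)
open Pool.Agent.Helper24.NR
open Pool.Agent.Helper24.UG (qk_closed qk_lower' summable_q0)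
open Pool.Agent.Helper54.LG (qk_zero_nonneg qk_neg_right)

namespace Pool.Agent.Helper99.NR

/-! ### scales -/

theorem two_pow_rpow99 (j : ℕ) (k : ℕ) (hk : 0 < k) : ((2:ℝ) ^ (k * j)) ^ (1 / (k : ℝ)) = 2 ^ j := by
  rw [mul_comm, pow_mul, ← Real.rpow_natCast ((2:ℝ) ^ j) k, ← Real.rpow_mul (by positivity)]
  have : (k : ℝ) * (1 / k) = 1 := by
    have : (k : ℝ) ≠ 0 := by positivity
    field_simp
  rw [this, Real.rpow_one]

/-- S2 -/
theorem mem_Js {L : ℝ} (hL : 1 ≤ L) {j : ℕ} (hj : j ∈ Js L) : L ^ (1 / 6 : ℝ) ≤ 2 ^ j ∧ (2:ℝ) ^ j ≤ L ^ (1 / 3 : ℝ) := by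
  have hL0 : 0 ≤ L := by linarith
  unfold Js at hj
  rw [Finset.mem_filter] at hj
  obtain ⟨-, h1, h2⟩ := hj
  constructor
  · have := Real.rpow_le_rpow hL0 h1 (show (0:ℝ) ≤ 1 / 6 by norm_num)
    have e := two_pow_rpow99 j 6 (by norm_num)
    norm_num at e this ⊢
    rwa [e] at this
  · have := Real.rpow_le_rpow (by positivity) h2 (show (0:ℝ) ≤ 1 / 3 by norm_num)
    have e := two_pow_rpow99 j 3 (by norm_num)
    norm_num at e this ⊢
    rwa [e] at this

theorem js_eq99 {L : ℝ} (hL : 1 ≤ L) :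
    Js L = Finset.Icc ⌈Real.log L / Real.log 2 / 6⌉₊ ⌊Real.log L / Real.log 2 / 3⌋₊ := by
  have hL0 : 0 < L := by linarith
  have hl2 : 0 < Real.log 2 := Real.log_pos (by norm_num)
  have hl22 : 1 / 2 < Real.log 2 := by have := Real.log_two_gt_d9; linarith
  have hlL : 0 ≤ Real.log L := Real.log_nonneg hL
  ext j
  unfold Js
  rw [Finset.mem_filter, Finset.mem_range, Finset.mem_Icc, Nat.ceil_le, Nat.le_floor_iff (by positivity)]
  have e1 : L ≤ (2:ℝ) ^ (6 * j) ↔ Real.log L / Real.log 2 / 6 ≤ j := by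
    rw [← Real.log_le_log_iff hL0 (by positivity), Real.log_pow, div_div, div_le_iff₀ (by positivity)]
    push_cast
    constructor <;> intro h <;> linarith
  have e2 : (2:ℝ) ^ (3 * j) ≤ L ↔ (j : ℝ) ≤ Real.log L / Real.log 2 / 3 := by
    rw [← Real.log_le_log_iff (by positivity) hL0, Real.log_pow, div_div, le_div_iff₀ (by positivity)]
    push_cast
    constructor <;> intro h <;> linarith
  rw [e1, e2]
  constructor
  · rintro ⟨-, h1, h2⟩
    exact ⟨h1, h2⟩
  · rintro ⟨h1, h2⟩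
    refine ⟨?_, h1, h2⟩
    have h3 : (j : ℝ) ≤ L := by
      have h4 : Real.log L ≤ L - 1 := Real.log_le_sub_one_of_pos hL0
      calc (j : ℝ) ≤ Real.log L / Real.log 2 / 3 := h2
        _ ≤ Real.log L := by
          rw [div_div, div_le_iff₀ (by positivity)]
          nlinarith
        _ ≤ L := by linarith
    exact Nat.lt_succ_of_le (Nat.le_floor h3)

/-- S1: for large `L` there are at least `log L/6` scales, and at most `log L` -/
theorem card_bd : ∃ C : ℝ, 1 ≤ C ∧ ∀ L : ℝ, C ≤ L → Real.log L / 6 ≤ ((Js L).card : ℝ) ∧ ((Js L).card : ℝ) ≤ Real.log L := by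
  refine ⟨Real.exp 14, Real.one_le_exp (by norm_num), fun L hL => ?_⟩
  have hL1 : 1 ≤ L := (Real.one_le_exp (by norm_num)).trans hL
  have hL0 : 0 < L := by linarith
  have hl : 14 ≤ Real.log L := by rwa [Real.le_log_iff_exp_le hL0]
  have hl2 := Real.log_two_gt_d9
  have hl3 := Real.log_two_lt_d9
  have hl20 : 0 < Real.log 2 := by linarith
  obtain ⟨x, hx⟩ : ∃ x, x = Real.log L / Real.log 2 := ⟨_, rfl⟩
  have hxl : x * Real.log 2 = Real.log L := by rw [hx]; field_simp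
  have hx0 : 0 < x := by rw [hx]; positivity
  have hx1 : Real.log L * 1.44 ≤ x := by
    rw [hx, le_div_iff₀ hl20]
    nlinarith
  have hx2 : x ≤ Real.log L * 1.45 := by
    rw [hx, div_le_iff₀ hl20]
    nlinarith
  have e := js_eq99 hL1
  rw [← hx] at e
  rw [e, Nat.card_Icc]
  have a1 := Nat.floor_le (show 0 ≤ x / 3 by positivity)
  have a2 := Nat.lt_floor_add_one (x / 3)
  have a3 := Nat.le_ceil (x / 6)
  have a4 := Nat.ceil_lt_add_one (show 0 ≤ x / 6 by positivity)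
  have hle : ⌈x / 6⌉₊ ≤ ⌊x / 3⌋₊ + 1 := by
    have : (⌈x / 6⌉₊ : ℝ) ≤ ((⌊x / 3⌋₊ + 1 : ℕ) : ℝ) := by
      push_cast
      linarith
    exact_mod_cast this
  rw [Nat.cast_sub hle]
  push_cast
  constructor <;> linarith

/-! ### the kernel -/

theorem qk_lip0 (b b' : ℝ) : |qk 0 b - qk 0 b'| ≤ 2 * |b - b'| := by
  unfold qk
  rw [← mul_sub, ← intervalIntegral.integral_sub (by
      apply Continuous.intervalIntegrable
      fun_prop) (by
      apply Continuous.intervalIntegrable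
      fun_prop), abs_mul, abs_of_pos (by norm_num : (0:ℝ) < 2)]
  apply mul_le_mul_of_nonneg_left _ (by norm_num)
  have := intervalIntegral.norm_integral_le_of_norm_le_const (a := (0:ℝ)) (b := 1) (C := |b - b'|)
    (f := fun u => (1 - u) ^ 2 * Real.cosh (0 * u) * Real.cos (b * u) - (1 - u) ^ 2 * Real.cosh (0 * u) * Real.cos (b' * u))
    (fun u hu => by
      rw [uIoc_of_le zero_le_one] at hu
      obtain ⟨h0, h1⟩ := hu
      rw [zero_mul, Real.cosh_zero, mul_one, ← mul_sub, Real.norm_eq_abs, abs_mul, abs_of_nonneg (by positivity)]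
      have h2 : |Real.cos (b * u) - Real.cos (b' * u)| ≤ |b - b'| := by
        refine (Real.abs_cos_sub_cos_le _ _).trans ?_
        rw [← sub_mul, abs_mul, abs_of_pos h0]
        exact mul_le_of_le_one_right (abs_nonneg _) h1
      have h3 : (1 - u) ^ 2 ≤ 1 := pow_le_one₀ (by linarith) (by linarith)
      calc (1 - u) ^ 2 * |Real.cos (b * u) - Real.cos (b' * u)| ≤ 1 * |b - b'| := by
            apply mul_le_mul h3 h2 (abs_nonneg _) (by norm_num)
        _ = |b - b'| := one_mul _)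
  rw [Real.norm_eq_abs] at this
  simpa using this

theorem qk_le8 (b : ℝ) : b ^ 2 * qk 0 b ≤ 8 := by
  rcases eq_or_ne b 0 with h | h
  · rw [h]; norm_num
  · have h1 := qk_closed b
    have h2 : |b| * (b ^ 2 * qk 0 b) ≤ |b| * 8 := by
      have h3 : |b ^ 3 * qk 0 b| = |b| * (b ^ 2 * qk 0 b) := by
        have h4 : b ^ 3 * qk 0 b = b * (b ^ 2 * qk 0 b) := by ring
        rw [h4, abs_mul, abs_of_nonneg (mul_nonneg (sq_nonneg b) (qk_zero_nonneg b))]
      rw [← h3, h1, abs_mul, abs_of_pos (by norm_num : (0:ℝ) < 4)]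
      have h5 : |b - Real.sin b| ≤ |b| + |b| := (abs_sub _ _).trans (add_le_add le_rfl Real.abs_sin_le_abs)
      linarith
    exact le_of_mul_le_mul_left h2 (abs_pos.2 h)

/-- the kernel is Lipschitz with a constant that decays -/
theorem qk_lip1 {b b' : ℝ} (h : |b - b'| ≤ 1 / 2) : |qk 0 b - qk 0 b'| ≤ 40 * |b - b'| / (1 + b ^ 2) := by
  have hd := abs_nonneg (b - b')
  rw [le_div_iff₀ (by positivity)]
  rcases le_total |b| 2 with hb | hb
  · have h1 := qk_lip0 b b'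
    have h2 : b ^ 2 ≤ 4 := by
      have := sq_abs b
      have h0 := abs_nonneg b
      nlinarith
    calc |qk 0 b - qk 0 b'| * (1 + b ^ 2) ≤ (2 * |b - b'|) * (1 + 4) := by
          apply mul_le_mul h1 (by linarith) (by positivity) (by positivity)
      _ ≤ 40 * |b - b'| := by linarith
  · have hb0 : 0 < |b| := by linarith
    have h1 : |b'| ≤ |b| + 1 / 2 := by
      have := abs_sub_abs_le_abs_sub b' b
      rw [abs_sub_comm b' b] at this
      linarith
    have h2 : |b| - 1 / 2 ≤ |b'| := by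
      have := abs_sub_abs_le_abs_sub b b'
      linarith
    have hb' : 3 / 4 * |b| ≤ |b'| := by linarith
    have hb'2 : |b'| ≤ 5 / 4 * |b| := by linarith
    have hb'0 : 0 < |b'| := by linarith
    have e : b ^ 3 * (qk 0 b - qk 0 b') = 4 * ((b - b') - (Real.sin b - Real.sin b')) -
        (b - b') * ((b ^ 2 + b * b' + b' ^ 2) * qk 0 b') := by
      have e1 := qk_closed b
      have e2 := qk_closed b'
      linear_combination e1 - e2
    have hs : |Real.sin b - Real.sin b'| ≤ |b - b'| := Real.abs_sin_sub_sin_le _ _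
    have hq := qk_le8 b'
    have hq0 := qk_zero_nonneg b'
    have h3 : |(b ^ 2 + b * b' + b' ^ 2) * qk 0 b'| ≤ 34 := by
      rw [abs_mul, abs_of_nonneg hq0]
      have h4 : |b ^ 2 + b * b' + b' ^ 2| ≤ (16 / 9 + 4 / 3 + 1) * b' ^ 2 := by
        have h5 : |b ^ 2 + b * b' + b' ^ 2| ≤ |b| ^ 2 + |b| * |b'| + |b'| ^ 2 := by
          have := abs_add_three (b ^ 2) (b * b') (b' ^ 2)
          rwa [abs_pow, abs_mul, abs_pow] at this
        have h7 : |b| ≤ 4 / 3 * |b'| := by linarith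
        refine h5.trans ?_
        rw [← sq_abs b']
        nlinarith
      calc |b ^ 2 + b * b' + b' ^ 2| * qk 0 b' ≤ ((16 / 9 + 4 / 3 + 1) * b' ^ 2) * qk 0 b' :=
            mul_le_mul_of_nonneg_right h4 hq0
        _ = (16 / 9 + 4 / 3 + 1) * (b' ^ 2 * qk 0 b') := by ring
        _ ≤ (16 / 9 + 4 / 3 + 1) * 8 := by gcongr
        _ ≤ 34 := by norm_num
    have h8 : |b| ^ 3 * |qk 0 b - qk 0 b'| ≤ 42 * |b - b'| := by
      rw [← abs_pow, ← abs_mul, e]
      refine (abs_sub _ _).trans ?_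
      rw [abs_mul, abs_mul (b - b'), abs_of_pos (by norm_num : (0:ℝ) < 4)]
      have h9 : |b - b' - (Real.sin b - Real.sin b')| ≤ 2 * |b - b'| := (abs_sub _ _).trans (by linarith)
      have h10 : |b - b'| * |(b ^ 2 + b * b' + b' ^ 2) * qk 0 b'| ≤ |b - b'| * 34 := mul_le_mul_of_nonneg_left h3 hd
      linarith
    have h11 : 1 + b ^ 2 ≤ 5 / 4 * |b| ^ 2 := by
      have := sq_abs b
      nlinarith
    have h12 : 5 / 4 * |b| ^ 2 ≤ 5 / 8 * |b| ^ 3 := by
      have : |b| ^ 3 = |b| * |b| ^ 2 := by ring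
      rw [this]
      have h13 : 0 ≤ |b| ^ 2 := by positivity
      nlinarith
    have h14 := abs_nonneg (qk 0 b - qk 0 b')
    calc |qk 0 b - qk 0 b'| * (1 + b ^ 2) ≤ |qk 0 b - qk 0 b'| * (5 / 8 * |b| ^ 3) :=
          mul_le_mul_of_nonneg_left (by linarith) h14
      _ = 5 / 8 * (|b| ^ 3 * |qk 0 b - qk 0 b'|) := by ring
      _ ≤ 5 / 8 * (42 * |b - b'|) := by gcongr
      _ ≤ 40 * |b - b'| := by linarith

/-- the kernel is Lipschitz, relative form -/
theorem qk_lip {b b' : ℝ} (h : |b - b'| ≤ 1 / 2) : |qk 0 b - qk 0 b'| ≤ 175 * |b - b'| * qk 0 b := by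
  have h1 := qk_lip1 h
  have h2 := qk_lower' b
  have h3 : 1 / (1 + b ^ 2) ≤ 48 / 11 * qk 0 b := by
    have : 1 / (1 + b ^ 2) = 48 / 11 * (11 / 48 / (1 + b ^ 2)) := by field_simp
    rw [this]
    linarith
  have hd := abs_nonneg (b - b')
  calc |qk 0 b - qk 0 b'| ≤ 40 * |b - b'| / (1 + b ^ 2) := h1
    _ = 40 * |b - b'| * (1 / (1 + b ^ 2)) := by ring
    _ ≤ 40 * |b - b'| * (48 / 11 * qk 0 b) := by gcongr
    _ ≤ 175 * |b - b'| * qk 0 b := by
        have := mul_nonneg hd (qk_zero_nonneg b)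
        nlinarith

/-! ### the linear statistic -/

theorem XX_pos99 {T M : ℝ} (hT : 1 < T) (hM : 0 < M) : 0 < XX T M := by
  unfold XX
  have := Real.log_pos hT
  positivity

theorem phi_zb99 {T L t : ℝ} (hT : 1 < T) (ρ : ℂ) :
    phi L ((ρ.im - t) / sp T) = wJ L * ∑ j ∈ Js L, qk 0 (zb (XX T (2 ^ j)) t ρ) := by
  have hL : 0 < Real.log T := Real.log_pos hT
  have hpi := Real.pi_pos
  unfold phi
  congr 1
  refine Finset.sum_congr rfl fun j _ => ?_
  have : 2 * Real.pi * ((ρ.im - t) / sp T) / 2 ^ j = -(zb (XX T (2 ^ j)) t ρ) := by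
    unfold sp zb XX
    field_simp
    ring
  rw [this, qk_neg_right]

/-- G1 -/
theorem tot_eq {T L t : ℝ} (hT : 1 < T) : Tot T L t = wJ L * ∑ j ∈ Js L, NX (XX T (2 ^ j)) t := by
  unfold Tot Pool.Agent.Helper69.UG.NX
  rw [Finset.mul_sum]
  have hs : ∀ j ∈ Js L, Summable fun ρ : ZS => wJ L * (mx ρ * qk 0 (zb (XX T (2 ^ j)) t ρ)) := fun j _ =>
    (summable_q0 (XX_pos99 hT (by positivity)) t).mul_left _
  have e : ∀ j ∈ Js L, wJ L * ∑' ρ : ZS, mx ρ * qk 0 (zb (XX T (2 ^ j)) t ρ) =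
      ∑' ρ : ZS, wJ L * (mx ρ * qk 0 (zb (XX T (2 ^ j)) t ρ)) := fun j _ => (tsum_mul_left).symm
  rw [Finset.sum_congr rfl e, ← Summable.tsum_finsetSum hs]
  refine tsum_congr fun ρ => ?_
  rw [phi_zb99 hT, Finset.mul_sum, Finset.mul_sum]
  refine Finset.sum_congr rfl fun j _ => ?_
  ring

/-- one scale -/
theorem nx_lip99 {X t u : ℝ} (hX : 0 < X) (h : X * |t - u| ≤ 1 / 2) :
    |NX X t - NX X u| ≤ 175 * (X * |t - u|) * NX X t := by
  have s1 := summable_q0 hX t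
  have s2 := summable_q0 hX u
  have hb : ∀ ρ : ZS, |zb X t ρ - zb X u ρ| = X * |t - u| := by
    intro ρ
    have : zb X t ρ - zb X u ρ = X * (t - u) := by unfold zb; ring
    rw [this, abs_mul, abs_of_pos hX]
  have hle : ∀ ρ : ZS, ‖mx ρ * qk 0 (zb X t ρ) - mx ρ * qk 0 (zb X u ρ)‖ ≤
      175 * (X * |t - u|) * (mx ρ * qk 0 (zb X t ρ)) := by
    intro ρ
    rw [← mul_sub, Real.norm_eq_abs, abs_mul, abs_of_nonneg (mx_nonneg _)]
    have := qk_lip (b := zb X t ρ) (b' := zb X u ρ) (by rw [hb]; exact h)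
    rw [hb] at this
    calc mx (ρ : ℂ) * |qk 0 (zb X t ρ) - qk 0 (zb X u ρ)| ≤ mx (ρ : ℂ) * (175 * (X * |t - u|) * qk 0 (zb X t ρ)) :=
          mul_le_mul_of_nonneg_left this (mx_nonneg _)
      _ = _ := by ring
  have s3 : Summable fun ρ : ZS => ‖mx ρ * qk 0 (zb X t ρ) - mx ρ * qk 0 (zb X u ρ)‖ :=
    Summable.of_nonneg_of_le (fun _ => norm_nonneg _) hle (s1.mul_left _)
  unfold Pool.Agent.Helper69.UG.NX
  rw [← s1.tsum_sub s2, ← Real.norm_eq_abs]
  refine (norm_tsum_le_tsum_norm s3).trans ?_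
  rw [← tsum_mul_left]
  exact s3.tsum_le_tsum hle (s1.mul_left _)

/-- G2: Lipschitz bound -/
theorem tot_lip : ∃ C : ℝ, 1 ≤ C ∧ ∀ T L t u : ℝ, 3 ≤ T → C ≤ L → |t - u| ≤ sp T →
    |Tot T L t - Tot T L u| ≤ C * (|t - u| / sp T) * (wJ L * ∑ j ∈ Js L, NX (XX T (2 ^ j)) t / 2 ^ j) := by
  refine ⟨(16:ℝ) ^ 6, by norm_num, fun T L t u hT hL htu => ?_⟩
  have hT1 : 1 < T := by linarith
  have hl : 0 < Real.log T := Real.log_pos hT1
  have hpi := Real.pi_pos
  have hpi4 := Real.pi_lt_d2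
  have hL1 : 1 ≤ L := le_trans (by norm_num) hL
  have hsp : 0 < sp T := by unfold sp; positivity
  have hw : 0 ≤ wJ L := by unfold wJ; positivity
  rw [tot_eq hT1, tot_eq hT1, ← mul_sub, ← Finset.sum_sub_distrib, abs_mul, abs_of_nonneg hw]
  have key : ∀ j ∈ Js L, |NX (XX T (2 ^ j)) t - NX (XX T (2 ^ j)) u| ≤
      (16:ℝ) ^ 6 * (|t - u| / sp T) * (NX (XX T (2 ^ j)) t / 2 ^ j) := by
    intro j hj
    have hm := (mem_Js hL1 hj).1
    have h16 : (16:ℝ) ≤ L ^ (1 / 6 : ℝ) := by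
      have h1 : ((16:ℝ) ^ 6) ^ (1 / 6 : ℝ) ≤ L ^ (1 / 6 : ℝ) := Real.rpow_le_rpow (by norm_num) hL (by norm_num)
      have h2 : ((16:ℝ) ^ 6) ^ (1 / 6 : ℝ) = 16 := by
        rw [← Real.rpow_natCast, ← Real.rpow_mul (by norm_num)]
        norm_num
      rwa [h2] at h1
    have h2j : (16:ℝ) ≤ 2 ^ j := h16.trans hm
    have h2j0 : (0:ℝ) < 2 ^ j := by positivity
    have hX := XX_pos99 hT1 h2j0
    have e1 : XX T (2 ^ j) * |t - u| = 2 * Real.pi * (|t - u| / sp T) / 2 ^ j := by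
      unfold XX sp
      field_simp
    have hr : |t - u| / sp T ≤ 1 := by rwa [div_le_one hsp]
    have hr0 : 0 ≤ |t - u| / sp T := by positivity
    have h12 : XX T (2 ^ j) * |t - u| ≤ 1 / 2 := by
      rw [e1, div_le_iff₀ h2j0]
      nlinarith
    have hnx : 0 ≤ NX (XX T (2 ^ j)) t := by
      unfold Pool.Agent.Helper69.UG.NX
      exact tsum_nonneg fun ρ => mul_nonneg (mx_nonneg _) (qk_zero_nonneg _)
    have := nx_lip99 hX h12
    rw [e1] at this
    refine this.trans ?_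
    have e2 : 175 * (2 * Real.pi * (|t - u| / sp T) / 2 ^ j) * NX (XX T (2 ^ j)) t =
        (350 * Real.pi) * ((|t - u| / sp T) * (NX (XX T (2 ^ j)) t / 2 ^ j)) := by ring
    rw [e2]
    have h350 : 350 * Real.pi ≤ (16:ℝ) ^ 6 := by norm_num; linarith
    have hz : 0 ≤ |t - u| / sp T * (NX (XX T (2 ^ j)) t / 2 ^ j) := by positivity
    calc (350 * Real.pi) * (|t - u| / sp T * (NX (XX T (2 ^ j)) t / 2 ^ j)) ≤
          (16:ℝ) ^ 6 * (|t - u| / sp T * (NX (XX T (2 ^ j)) t / 2 ^ j)) := mul_le_mul_of_nonneg_right h350 hz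
      _ = _ := by ring
  calc wJ L * |∑ j ∈ Js L, (NX (XX T (2 ^ j)) t - NX (XX T (2 ^ j)) u)|
      ≤ wJ L * ∑ j ∈ Js L, |NX (XX T (2 ^ j)) t - NX (XX T (2 ^ j)) u| :=
        mul_le_mul_of_nonneg_left (Finset.abs_sum_le_sum_abs _ _) hw
    _ ≤ wJ L * ∑ j ∈ Js L, (16:ℝ) ^ 6 * (|t - u| / sp T) * (NX (XX T (2 ^ j)) t / 2 ^ j) :=
        mul_le_mul_of_nonneg_left (Finset.sum_le_sum key) hw
    _ = _ := by
        rw [← Finset.mul_sum]
        ring

end Pool.Agent.Helper99.NR
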