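import Pool.Agent.Helper69.UG.Defs
import Pool.Agent.Helper93.UG.Top

/-!
# NR: the majorants of the loss at two near points
-/

set_option autoImplicit false
open MeasureTheory Set Filter Topology
open Pool.Agent.Helper57.Zeta Pool.Agent.Helper57.LH Pool.Agent.Helper57.ED Pool.Agent.Helper54.LG
open Pool.Agent.Helper69.UG (XX far near)
open Pool.Agent.Helper93.UG (sp)

namespace Pool.Agent.Helper99.NR

/-- Two comparable sums. -/
theorem tsum_comp99 {ι : Type*} {f g : ι → ℝ} {C : ℝ} (hf : ∀ i, 0 ≤ f i) (hg : ∀ i, 0 ≤ g i)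
    (h1 : ∀ i, f i ≤ C * g i) (h2 : ∀ i, g i ≤ C * f i) : ∑' i, f i ≤ C * ∑' i, g i := by
  by_cases hs : Summable g
  · have hfs : Summable f := Summable.of_nonneg_of_le hf h1 (hs.mul_left C)
    rw [← tsum_mul_left]
    exact hfs.tsum_le_tsum h1 (hs.mul_left C)
  · have hfs : ¬ Summable f := fun h => hs (Summable.of_nonneg_of_le hg h2 (h.mul_left C))
    rw [tsum_eq_zero_of_not_summable hs, tsum_eq_zero_of_not_summable hfs, mul_zero]

/-- One term. -/
theorem zb_comp99 {T M t t' : ℝ} (hT : 1 < T) (hM : 16 ≤ M) (h : |t - t'| ≤ sp T) (ρ : ℂ) :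
    1 / (1 + zb (XX T M) t ρ ^ 2) ≤ 2 * (1 / (1 + zb (XX T M) t' ρ ^ 2)) := by
  have hL : 0 < Real.log T := Real.log_pos hT
  have hM0 : 0 < M := by linarith
  obtain ⟨d, hd⟩ : ∃ d, d = XX T M * (t' - t) := ⟨_, rfl⟩
  have e1 : zb (XX T M) t' ρ = zb (XX T M) t ρ + d := by
    rw [hd]; unfold zb; ring
  have hd1 : |d| ≤ 1 / 2 := by
    rw [hd, abs_mul, abs_sub_comm t' t]
    have hx : |XX T M| = Real.log T / M := by
      unfold XX
      exact abs_of_pos (by positivity)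
    rw [hx]
    have hpi := Real.pi_lt_d2
    calc Real.log T / M * |t - t'| ≤ Real.log T / M * (2 * Real.pi / Real.log T) := by
          apply mul_le_mul_of_nonneg_left h (by positivity)
      _ = 2 * Real.pi / M := by field_simp
      _ ≤ 1 / 2 := by
          rw [div_le_div_iff₀ hM0 (by norm_num)]
          linarith
  have hd2 : d ^ 2 ≤ 1 / 4 := by
    have := sq_abs d
    have h0 := abs_nonneg d
    nlinarith
  rw [e1]
  obtain ⟨z, hz⟩ : ∃ z, z = zb (XX T M) t ρ := ⟨_, rfl⟩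
  rw [← hz, mul_one_div, div_le_div_iff₀ (by positivity) (by positivity)]
  nlinarith [sq_nonneg (z - d)]

/-- The general form. -/
theorem comp99 {T M t t' : ℝ} (hT : 1 < T) (hM : 16 ≤ M) (h : |t - t'| ≤ sp T) {w : ZS → ℝ} (hw : ∀ ρ, 0 ≤ w ρ) :
    ∑' ρ : ZS, w ρ * (1 / (1 + zb (XX T M) t ρ ^ 2)) ≤ 2 * ∑' ρ : ZS, w ρ * (1 / (1 + zb (XX T M) t' ρ ^ 2)) := by
  have h' : |t' - t| ≤ sp T := by rwa [abs_sub_comm]
  refine tsum_comp99 (fun ρ => by have := hw ρ; positivity) (fun ρ => by have := hw ρ; positivity) (fun ρ => ?_)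
    (fun ρ => ?_)
  · have := mul_le_mul_of_nonneg_left (zb_comp99 hT hM h (ρ : ℂ)) (hw ρ)
    linarith
  · have := mul_le_mul_of_nonneg_left (zb_comp99 hT hM h' (ρ : ℂ)) (hw ρ)
    linarith

/-- The sum over all zeros. -/
theorem kc_comp {T M t t' : ℝ} (hT : 1 < T) (hM : 16 ≤ M) (h : |t - t'| ≤ sp T) :
    ∑' ρ : ZS, mx ρ / (1 + zb (XX T M) t ρ ^ 2) ≤ 2 * ∑' ρ : ZS, mx ρ / (1 + zb (XX T M) t' ρ ^ 2) := by
  have e := comp99 hT hM h (w := fun ρ : ZS => mx ρ) (fun ρ => mx_nonneg _)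
  simpa only [mul_one_div] using e

/-- The far part. -/
theorem far_comp {T M t t' : ℝ} (Y : ℝ) (hT : 1 < T) (hM : 16 ≤ M) (h : |t - t'| ≤ sp T) :
    far T M Y t ≤ 2 * far T M Y t' := by
  classical
  have e := comp99 hT hM h (w := fun ρ : ZS => mx ρ * (if Real.log T * |(ρ : ℂ).re - 1 / 2| < Y then 0 else
    Real.exp (2 * za (XX T M) ρ))) (fun ρ => by
      have := mx_nonneg (ρ : ℂ)
      have h1 := (Real.exp_pos (2 * za (XX T M) ρ)).le
      split_ifs <;> positivity)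
  have e1 : ∀ t, far T M Y t = ∑' ρ : ZS, mx ρ * (if Real.log T * |(ρ : ℂ).re - 1 / 2| < Y then 0 else
      Real.exp (2 * za (XX T M) ρ)) * (1 / (1 + zb (XX T M) t ρ ^ 2)) := by
    intro t
    unfold far
    refine tsum_congr fun ρ => ?_
    split_ifs <;> ring
  rw [e1, e1]
  exact e

/-- The near part. -/
theorem near_comp {T M t t' : ℝ} (Y : ℝ) (hT : 1 < T) (hM : 16 ≤ M) (h : |t - t'| ≤ sp T) :
    near T M Y t ≤ 2 * near T M Y t' := by
  classical
  have e := comp99 hT hM h (w := fun ρ : ZS => mx ρ * (if Real.log T * |(ρ : ℂ).re - 1 / 2| < Y then 1 else 0))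
    (fun ρ => by
      have := mx_nonneg (ρ : ℂ)
      split_ifs <;> positivity)
  have e1 : ∀ t, near T M Y t = ∑' ρ : ZS, mx ρ * (if Real.log T * |(ρ : ℂ).re - 1 / 2| < Y then 1 else 0) *
      (1 / (1 + zb (XX T M) t ρ ^ 2)) := by
    intro t
    unfold near
    refine tsum_congr fun ρ => ?_
    split_ifs <;> ring
  rw [e1, e1]
  exact e

end Pool.Agent.Helper99.NR
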