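import Pool.Agent.Helper99.NR.G

/-!
# NR: block S3 (`js_range`)
-/

set_option autoImplicit false
open MeasureTheory Set Filter Topology
open Pool.Agent.Helper24.NR

namespace Pool.Agent.Helper99.NR

/-- S3: the scales are a range -/
theorem js_range {L : ℝ} (hL : 64 ≤ L) : ∃ a : ℕ, (∀ f : ℕ → ℝ, ∑ j ∈ Js L, f j = ∑ i ∈ Finset.range (Js L).card, f (a + i)) ∧
    L ≤ (2:ℝ) ^ (6 * a) ∧ 1 ≤ (Js L).card ∧ (2:ℝ) ^ (3 * (a + (Js L).card - 1)) ≤ L := by
  have hL1 : 1 ≤ L := by linarith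
  have hL0 : 0 < L := by linarith
  have hl20 : 0 < Real.log 2 := Real.log_pos (by norm_num)
  obtain ⟨x, hx⟩ : ∃ x, x = Real.log L / Real.log 2 := ⟨_, rfl⟩
  have hx6 : 6 ≤ x := by
    rw [hx, le_div_iff₀ hl20]
    have h1 : Real.log 64 ≤ Real.log L := Real.log_le_log (by norm_num) hL
    have h2 : Real.log 64 = 6 * Real.log 2 := by
      have : (64:ℝ) = 2 ^ 6 := by norm_num
      rw [this, Real.log_pow]
      norm_num
    linarith
  have e := js_eq99 hL1
  rw [← hx] at e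
  obtain ⟨a, ha⟩ : ∃ a, a = ⌈x / 6⌉₊ := ⟨_, rfl⟩
  obtain ⟨b, hb⟩ : ∃ b, b = ⌊x / 3⌋₊ := ⟨_, rfl⟩
  rw [← ha, ← hb] at e
  have a1 : (b : ℝ) ≤ x / 3 := by rw [hb]; exact Nat.floor_le (by positivity)
  have a2 : x / 3 < b + 1 := by rw [hb]; exact Nat.lt_floor_add_one _
  have a3 : x / 6 ≤ a := by rw [ha]; exact Nat.le_ceil _
  have a4 : (a : ℝ) < x / 6 + 1 := by rw [ha]; exact Nat.ceil_lt_add_one (by positivity)
  have hab : a ≤ b := by
    have h1 : (a : ℝ) < b + 1 := by linarith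
    have h2 : a < b + 1 := by exact_mod_cast h1
    omega
  have hc : (Js L).card = b + 1 - a := by rw [e, Nat.card_Icc]
  refine ⟨a, fun f => ?_, ?_, by omega, ?_⟩
  · rw [hc, e, ← Finset.Ico_add_one_right_eq_Icc, Finset.sum_Ico_eq_sum_range]
  · rw [← Real.log_le_log_iff hL0 (by positivity), Real.log_pow]
    push_cast
    have h1 : Real.log L = x * Real.log 2 := by rw [hx]; field_simp
    rw [h1]
    apply mul_le_mul_of_nonneg_right _ hl20.le
    linarith
  · have h2 : a + (Js L).card - 1 = b := by omega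
    rw [h2, ← Real.log_le_log_iff (by positivity) hL0, Real.log_pow]
    push_cast
    have h1 : Real.log L = x * Real.log 2 := by rw [hx]; field_simp
    rw [h1]
    apply mul_le_mul_of_nonneg_right _ hl20.le
    linarith

end Pool.Agent.Helper99.NR
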